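import Pool.Agent.helper32.QS.Spec

set_option autoImplicit false

namespace QS

theorem NC7_div (p μ ℓ k : ℕ) (hp : p.Prime) (hℓ : ℓ.Prime) (hne : ℓ ≠ p)
    (h : ℓ ^ k ∣ ∏ j ∈ Finset.range μ, (p ^ μ - p ^ j)) :
    ℓ ^ k ∣ ∏ j ∈ Finset.range μ, (p ^ (μ - j) - 1) := by
  have h1 : ∏ j ∈ Finset.range μ, (p ^ μ - p ^ j) =
      (∏ j ∈ Finset.range μ, p ^ j) * ∏ j ∈ Finset.range μ, (p ^ (μ - j) - 1) := by
    rw [← Finset.prod_mul_distrib]
    apply Finset.prod_congr rfl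
    intro j hj
    have hj' : j < μ := Finset.mem_range.1 hj
    rw [Nat.mul_sub, mul_one, ← pow_add, Nat.add_sub_cancel' hj'.le]
  rw [h1] at h
  have hc : Nat.Coprime (ℓ ^ k) (∏ j ∈ Finset.range μ, p ^ j) := by
    apply Nat.Coprime.prod_right
    intro j _
    apply Nat.Coprime.pow
    exact (Nat.coprime_primes hℓ hp).2 hne
  exact hc.dvd_of_dvd_mul_left h

theorem NC7_five (μ ℓ i : ℕ) (hℓ : ℓ.Prime) (hi : 1 ≤ i) (h1 : ℓ ^ i % 5 = 1)
    (h : ℓ ^ (i * 5) ∣ ∏ j ∈ Finset.range μ, (5 ^ (μ - j) - 1)) (hμ : μ ≤ 5) : False := by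
  have hd : ℓ ^ (i * 5) ∣ 2 ^ 13 * 2832687 := by
    refine h.trans ?_
    interval_cases μ <;> decide +kernel
  by_cases h2 : ℓ = 2
  · subst h2
    have hi4 : 4 ≤ i := by
      by_contra hlt
      push Not at hlt
      interval_cases i <;> norm_num at h1
    have h20 : 2 ^ 20 ∣ 2 ^ 13 * 2832687 := (pow_dvd_pow 2 (by omega)).trans hd
    revert h20; decide +kernel
  · have hc : Nat.Coprime (ℓ ^ (i * 5)) (2 ^ 13) :=
      Nat.Coprime.pow _ _ ((Nat.coprime_primes hℓ Nat.prime_two).2 h2)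
    have h3 : ℓ ^ 5 ∣ 2832687 :=
      (pow_dvd_pow ℓ (by omega : 5 ≤ i * 5)).trans (hc.dvd_of_dvd_mul_left hd)
    have hle := Nat.le_of_dvd (by norm_num) h3
    have hlt : ℓ < 20 := by
      by_contra hge
      push Not at hge
      have := Nat.pow_le_pow_left hge 5
      norm_num at this
      omega
    have h2' := hℓ.two_le
    interval_cases ℓ <;> revert h3 <;> first | (exact fun _ => h2 rfl) | decide +kernel

theorem NC7_seven (μ ℓ i : ℕ) (hℓ : ℓ.Prime) (hi : 1 ≤ i) (h1 : ℓ ^ i % 7 = 1)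
    (h : ℓ ^ (i * 7) ∣ ∏ j ∈ Finset.range μ, (7 ^ (μ - j) - 1)) (hμ : μ ≤ 4) : False := by
  have hd : ℓ ^ (i * 7) ∣ 2 ^ 11 * 115425 := by
    refine h.trans ?_
    interval_cases μ <;> decide +kernel
  by_cases h2 : ℓ = 2
  · subst h2
    have hi3 : 3 ≤ i := by
      by_contra hlt
      push Not at hlt
      interval_cases i <;> norm_num at h1
    have h21 : 2 ^ 21 ∣ 2 ^ 11 * 115425 := (pow_dvd_pow 2 (by omega)).trans hd
    revert h21; decide +kernel
  · have hc : Nat.Coprime (ℓ ^ (i * 7)) (2 ^ 11) :=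
      Nat.Coprime.pow _ _ ((Nat.coprime_primes hℓ Nat.prime_two).2 h2)
    have h3 : ℓ ^ 7 ∣ 115425 :=
      (pow_dvd_pow ℓ (by omega : 7 ≤ i * 7)).trans (hc.dvd_of_dvd_mul_left hd)
    have hle := Nat.le_of_dvd (by norm_num) h3
    have hlt : ℓ < 6 := by
      by_contra hge
      push Not at hge
      have := Nat.pow_le_pow_left hge 7
      norm_num at this
      omega
    have h2' := hℓ.two_le
    interval_cases ℓ <;> revert h3 <;> first | (exact fun _ => h2 rfl) | decide +kernel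

theorem NC7_big (p μ ℓ i : ℕ) (hp : 11 ≤ p) (hℓ : ℓ.Prime) (hi : 1 ≤ i) (h1 : ℓ ^ i % p = 1)
    (h : ℓ ^ (i * p) ∣ ∏ j ∈ Finset.range μ, (p ^ (μ - j) - 1)) (hμ : μ ≤ 4) : False := by
  have hN0 : 0 < ∏ j ∈ Finset.range μ, (p ^ (μ - j) - 1) := by
    apply Finset.prod_pos
    intro j hj
    have hj' : j < μ := Finset.mem_range.1 hj
    have h2 : 1 < p ^ (μ - j) := Nat.one_lt_pow (by omega) (by omega)
    omega
  have hN : ∏ j ∈ Finset.range μ, (p ^ (μ - j) - 1) ≤ p ^ 10 := by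
    calc ∏ j ∈ Finset.range μ, (p ^ (μ - j) - 1) ≤ ∏ j ∈ Finset.range μ, p ^ (μ - j) :=
          Finset.prod_le_prod' (fun j _ => Nat.sub_le _ _)
      _ = p ^ (∑ j ∈ Finset.range μ, (μ - j)) := Finset.prod_pow_eq_pow_sum _ _ _
      _ ≤ p ^ 10 := by
        apply Nat.pow_le_pow_right (by omega)
        interval_cases μ <;> decide
  have hle := Nat.le_of_dvd hN0 h
  have hℓi : p + 1 ≤ ℓ ^ i := by
    have h2 : 1 < ℓ ^ i := Nat.one_lt_pow (by omega) hℓ.one_lt
    by_contra hlt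
    push Not at hlt
    have h3 : ℓ ^ i ≤ p := by omega
    rcases Nat.lt_or_eq_of_le h3 with h4 | h4
    · rw [Nat.mod_eq_of_lt h4] at h1; omega
    · rw [h4, Nat.mod_self] at h1; omega
  have h5 : p ^ 11 ≤ ℓ ^ (i * p) := by
    calc p ^ 11 ≤ p ^ p := Nat.pow_le_pow_right (by omega) hp
      _ ≤ (ℓ ^ i) ^ p := Nat.pow_le_pow_left (by omega) p
      _ = ℓ ^ (i * p) := by rw [← pow_mul]
  have h6 : p ^ 10 < p ^ 11 := Nat.pow_lt_pow_right (by omega) (by norm_num)
  omega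

theorem NC7 : NC7_stmt := by
  intro p μ ℓ i hp h5 hℓ hne hi h1 hd
  by_contra hlt
  push Not at hlt
  have hd' := NC7_div p μ ℓ (i * p) hp hℓ hne hd
  by_cases hp5 : p = 5
  · subst hp5
    have hμ : μ ≤ 5 := by
      by_contra hge
      push Not at hge
      have := Nat.pow_le_pow_right (n := 5) (by norm_num) hge
      norm_num at this
      omega
    exact NC7_five μ ℓ i hℓ hi h1 hd' hμ
  by_cases hp7 : p = 7
  · subst hp7
    have hμ : μ ≤ 4 := by
      by_contra hge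
      push Not at hge
      have := Nat.pow_le_pow_right (n := 7) (by norm_num) hge
      norm_num at this
      omega
    exact NC7_seven μ ℓ i hℓ hi h1 hd' hμ
  have hp11 : 11 ≤ p := by
    by_contra hlt'
    push Not at hlt'
    interval_cases p <;> first | (exact hp5 rfl) | (exact hp7 rfl) | (revert hp; decide)
  have hμ : μ ≤ 4 := by
    by_contra hge
    push Not at hge
    have h2 : p ^ 5 ≤ p ^ μ := Nat.pow_le_pow_right (by omega) hge
    have h3 := Nat.pow_le_pow_left hp11 5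
    norm_num at h3
    omega
  exact NC7_big p μ ℓ i hp11 hℓ hi h1 hd' hμ

end QS
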